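import Pool.Agent.H477R3.TurnCore

/-!
# One bend per exclusive edge is not enough

The plane is the complex plane `ℂ`.  A polygonal curve is given by the list of its corners, the two
end points included.  All graphs of the counterexample are connected, so that a combinatorial
planar embedding of such a graph is a rotation system of genus `0`: for every vertex the
counterclockwise cyclic order of its neighbours, with `|V| - |E| + |F| = 2`.
-/

set_option autoImplicit false

namespace Pool.Agent.Results.MP_061339_co.OneBendFails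

open Real

/-! ### Polygonal curves -/

/-- The set of points of the polygonal curve with the given list of corners. -/
def trace : List ℂ → Set ℂ
  | [] => ∅
  | [a] => {a}
  | a :: b :: l => segment ℝ a b ∪ trace (b :: l)

/-- The polygonal curve with the given list of corners is simple: each of its segments is
nondegenerate and meets the rest of the curve (from its second end on) in its second end only. -/
def IsSimple : List ℂ → Prop
  | [] => True
  | [_] => True
  | a :: b :: l => a ≠ b ∧ segment ℝ a b ∩ trace (b :: l) = {b} ∧ IsSimple (b :: l)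

/-- Data of a drawing with polygonal edges: the point of each vertex, and for two adjacent
vertices `u, v` the list of the bends met when going from `u` to `v` along the edge `uv`. -/
structure PolyDrawing (V : Type) where
  /-- the point of a vertex -/
  pos : V → ℂ
  /-- the bends of the edge `uv`, going from `u` to `v` -/
  bends : V → V → List ℂ

namespace PolyDrawing

variable {V : Type}

/-- The list of corners of the curve of the edge `uv`. -/
def curve (D : PolyDrawing V) (u v : V) : List ℂ := D.pos u :: (D.bends u v ++ [D.pos v])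

/-- The restriction of `D` to the graph `G` is a planar drawing of `G`: edges are simple polygonal
curves joining their end points and passing through no other vertex, and the curves of two distinct
edges meet in common end vertices only. -/
structure IsPlanarDrawingOf (D : PolyDrawing V) (G : SimpleGraph V) : Prop where
  symm : ∀ u v, G.Adj u v → D.bends v u = (D.bends u v).reverse
  simple : ∀ u v, G.Adj u v → IsSimple (D.curve u v)
  avoid : ∀ u v w, G.Adj u v → w ≠ u → w ≠ v → D.pos w ∉ trace (D.curve u v)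
  planar : ∀ u v w z, G.Adj u v → G.Adj w z → s(u, v) ≠ s(w, z) →
    trace (D.curve u v) ∩ trace (D.curve w z) ⊆ D.pos '' ({u, v} ∩ {w, z})

/-- The initial direction of the edge `va` at its end `v`. -/
def dir (D : PolyDrawing V) (v a : V) : ℂ :=
  (match D.bends v a with
    | [] => D.pos a
    | b :: _ => b) - D.pos v

end PolyDrawing

/-! ### Rotations -/

/-- The angle in `[0, 2π)` by which the vector `d` has to be turned counterclockwise in order to
point in the direction of `e`. -/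
noncomputable def ccwAngle (d e : ℂ) : ℝ :=
  if 0 ≤ Complex.arg (e / d) then Complex.arg (e / d) else Complex.arg (e / d) + 2 * π

/-- Turning counterclockwise from `d`, one meets first the direction of `e` and later the
direction of `f`. -/
def CCW (d e f : ℂ) : Prop := 0 < ccwAngle d e ∧ ccwAngle d e < ccwAngle d f

/-- A rotation system of `G`: for every vertex the cyclic (counterclockwise) order of its
neighbours, written as a list. -/
structure RotationSystem {V : Type} (G : SimpleGraph V) where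
  /-- the neighbours of a vertex in counterclockwise order -/
  rot : V → List V
  nodup : ∀ v, (rot v).Nodup
  mem : ∀ v w, w ∈ rot v ↔ G.Adj v w

namespace RotationSystem

variable {V : Type} {G : SimpleGraph V}

/-- Face tracing: the dart `(u, v)` is followed by the dart `(v, w)`, where `w` is the successor of
`u` in the cyclic order at `v`. -/
def FaceStep [DecidableEq V] (R : RotationSystem G) (d e : {p : V × V // G.Adj p.1 p.2}) : Prop :=
  e.1.1 = d.1.2 ∧ ∃ h : d.1.1 ∈ R.rot d.1.2, e.1.2 = (R.rot d.1.2).next d.1.1 h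

/-- The number of faces: the number of classes of darts under face tracing. -/
noncomputable def numFaces [DecidableEq V] (R : RotationSystem G) : ℕ := Nat.card (Quot R.FaceStep)

/-- A rotation system of a connected graph is planar if Euler's formula `|V| - |E| + |F| = 2`
holds. -/
def IsPlanar [DecidableEq V] (R : RotationSystem G) : Prop :=
  Nat.card V + R.numFaces = Nat.card G.edgeSet + 2

end RotationSystem

/-- The drawing `D` realises the rotation system `R`: around each vertex the initial directions of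
the edges appear in the counterclockwise order given by `R`. -/
def PolyDrawing.Realises {V : Type} (D : PolyDrawing V) {G : SimpleGraph V}
    (R : RotationSystem G) : Prop :=
  ∀ v a b c : V, [a, b, c].Sublist (R.rot v) → CCW (D.dir v a) (D.dir v b) (D.dir v c)

open Classical in
/-- Two rotation systems are compatible if they induce the same cyclic orders on the shared
graph `G₁ ⊓ G₂`. -/
def Compatible {V : Type} {G₁ G₂ : SimpleGraph V} (R₁ : RotationSystem G₁)
    (R₂ : RotationSystem G₂) : Prop :=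
  ∀ v, ((R₁.rot v).filter (fun w => (G₁ ⊓ G₂).Adj v w)).IsRotated
    ((R₂.rot v).filter (fun w => (G₁ ⊓ G₂).Adj v w))

/-- `D` is a simultaneous drawing of `G₁` and `G₂` realising the rotation systems `R₁, R₂`. -/
structure IsSimultaneousDrawing {V : Type} {G₁ G₂ : SimpleGraph V} (R₁ : RotationSystem G₁)
    (R₂ : RotationSystem G₂) (D : PolyDrawing V) : Prop where
  injective : Function.Injective D.pos
  planar₁ : D.IsPlanarDrawingOf G₁
  planar₂ : D.IsPlanarDrawingOf G₂
  realises₁ : D.Realises R₁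
  realises₂ : D.Realises R₂

/-- `D` is a `(k₁, k₂)`-drawing: every shared edge has at most `k₁` bends and every exclusive edge
has at most `k₂` bends. -/
def HasBends {V : Type} (G₁ G₂ : SimpleGraph V) (k₁ k₂ : ℕ) (D : PolyDrawing V) : Prop :=
  (∀ u v, (G₁ ⊓ G₂).Adj u v → (D.bends u v).length ≤ k₁) ∧
  (∀ u v, (G₁ ⊔ G₂).Adj u v → ¬ (G₁ ⊓ G₂).Adj u v → (D.bends u v).length ≤ k₂)

/-! ### The two graphs -/

/-- Rotations of the first graph.  The shared graph is a spider with centre `0` and three legs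
`0, 6a+1, …, 6a+6` (`a = 0, 1, 2`); the exclusive edges of the first graph are
`{6a+1, 6a+3}` and `{6a+3, 6a+5}`. -/
def rot₁ (v : Fin 19) : List (Fin 19) :=
  [[1, 7, 13], [2, 3, 0], [1, 3], [4, 5, 2, 1], [3, 5], [6, 4, 3], [5], [8, 9, 0], [7, 9],
    [10, 11, 8, 7], [9, 11], [12, 10, 9], [11], [14, 15, 0], [13, 15], [16, 17, 14, 13], [15, 17],
    [18, 16, 15], [17]].getD v []

/-- Rotations of the second graph, whose exclusive edges are `{6a+1, 6a+5}`. -/
def rot₂ (v : Fin 19) : List (Fin 19) :=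
  [[1, 7, 13], [2, 0, 5], [1, 3], [2, 4], [3, 5], [6, 1, 4], [5], [8, 0, 11], [7, 9], [8, 10],
    [9, 11], [12, 7, 10], [11], [14, 0, 17], [13, 15], [14, 16], [15, 17], [18, 13, 16],
    [17]].getD v []

/-- The first graph. -/
def G₁ : SimpleGraph (Fin 19) where
  Adj u v := v ∈ rot₁ u
  symm := ⟨by decide⟩
  loopless := ⟨by decide⟩

/-- The second graph. -/
def G₂ : SimpleGraph (Fin 19) where
  Adj u v := v ∈ rot₂ u
  symm := ⟨by decide⟩
  loopless := ⟨by decide⟩

instance : DecidableRel G₁.Adj := fun u v => inferInstanceAs (Decidable (v ∈ rot₁ u))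
instance : DecidableRel G₂.Adj := fun u v => inferInstanceAs (Decidable (v ∈ rot₂ u))

/-- The embedding of the first graph. -/
def R₁ : RotationSystem G₁ where
  rot := rot₁
  nodup := by decide
  mem _ _ := Iff.rfl

/-- The embedding of the second graph. -/
def R₂ : RotationSystem G₂ where
  rot := rot₂
  nodup := by decide
  mem _ _ := Iff.rfl

/-! ### Angles -/

open Pool.Agent.H477R3.Turn

theorem ccwAngle_exp (d e : ℂ) :
    e / d = ‖e / d‖ * Complex.exp (ccwAngle d e * Complex.I) := by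
  have h := (Complex.norm_mul_exp_arg_mul_I (e / d)).symm
  unfold ccwAngle
  split_ifs with h0
  · exact h
  · conv_lhs => rw [h]
    congr 1
    push_cast
    rw [add_mul, Complex.exp_add]
    have : Complex.exp (2 * π * Complex.I) = 1 := Complex.exp_two_pi_mul_I
    rw [this, mul_one]

theorem ccwAngle_nonneg (d e : ℂ) : 0 ≤ ccwAngle d e := by
  unfold ccwAngle
  split_ifs with h
  · exact h
  · have := Complex.neg_pi_lt_arg (e / d)
    have := Real.pi_pos
    linarith

theorem ccwAngle_lt (d e : ℂ) : ccwAngle d e < 2 * π := by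
  unfold ccwAngle
  have := Complex.arg_le_pi (e / d)
  have := Real.pi_pos
  split_ifs with h
  · linarith
  · push Not at h; linarith

theorem arg_of_exp {z : ℂ} {r θ : ℝ} (hr : 0 < r) (h : z = r * Complex.exp (θ * Complex.I))
    (h1 : -π < θ) (h2 : θ ≤ π) : Complex.arg z = θ := by
  rw [h, Complex.exp_mul_I]
  exact Complex.arg_mul_cos_add_sin_mul_I hr ⟨h1, h2⟩

theorem ccwAngle_unique {d e : ℂ} {r θ : ℝ} (hr : 0 < r)
    (h : e / d = r * Complex.exp (θ * Complex.I)) (h0 : 0 ≤ θ) (h1 : θ < 2 * π) :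
    ccwAngle d e = θ := by
  have hpi := Real.pi_pos
  unfold ccwAngle
  rcases le_or_gt θ π with h2 | h2
  · have := arg_of_exp hr h (by linarith) h2
    rw [this, if_pos h0]
  · have h' : e / d = r * Complex.exp (((θ - 2 * π : ℝ) : ℂ) * Complex.I) := by
      rw [h]
      congr 1
      push_cast
      rw [sub_mul, Complex.exp_sub]
      have : Complex.exp (2 * π * Complex.I) = 1 := Complex.exp_two_pi_mul_I
      rw [this, div_one]
    have := arg_of_exp hr h' (by linarith) (by linarith)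
    rw [this, if_neg (by linarith)]
    ring

theorem CCW.rotate {d e f : ℂ} (hd : d ≠ 0) (he : e ≠ 0) (hf : f ≠ 0) (h : CCW d e f) :
    CCW e f d := by
  obtain ⟨h1, h2⟩ := h
  have h3 := ccwAngle_lt d f
  have he' : 0 < ‖e / d‖ := norm_pos_iff.2 (div_ne_zero he hd)
  have hf' : 0 < ‖f / d‖ := norm_pos_iff.2 (div_ne_zero hf hd)
  have e1 := ccwAngle_exp d e
  have e2 := ccwAngle_exp d f
  have a1 : ccwAngle e f = ccwAngle d f - ccwAngle d e := by
    refine ccwAngle_unique (div_pos hf' he') ?_ (by linarith) (by linarith)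
    have : f / e = (f / d) / (e / d) := (div_div_div_cancel_right₀ hd f e).symm
    rw [this]
    conv_lhs => rw [e1, e2]
    push_cast
    rw [sub_mul, Complex.exp_sub, mul_div_mul_comm]
  have a2 : ccwAngle e d = 2 * π - ccwAngle d e := by
    refine ccwAngle_unique (inv_pos.2 he') ?_ (by linarith) (by linarith)
    have : d / e = (e / d)⁻¹ := (inv_div e d).symm
    rw [this]
    conv_lhs => rw [e1]
    have h2pi : Complex.exp (2 * π * Complex.I) = 1 := Complex.exp_two_pi_mul_I
    push_cast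
    rw [sub_mul, Complex.exp_sub, h2pi, mul_inv, one_div]
  exact ⟨by rw [a1]; linarith, by rw [a1, a2]; linarith⟩

/-- the comparison of turning angles given by a cyclic order -/
theorem CCW.arg_lt {d e f : ℂ} (hd : d ≠ 0) (he : e ≠ 0) (hf : f ≠ 0) (h : CCW d e f) :
    Complex.arg (-(d / f)) < Complex.arg (-(e / f)) := by
  obtain ⟨h1, h2⟩ := h
  have h3 := ccwAngle_lt d f
  have he' : 0 < ‖e / d‖ := norm_pos_iff.2 (div_ne_zero he hd)
  have hf' : 0 < ‖f / d‖ := norm_pos_iff.2 (div_ne_zero hf hd)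
  have e1 := ccwAngle_exp d e
  have e2 := ccwAngle_exp d f
  have a1 : Complex.arg (-(d / f)) = π - ccwAngle d f := by
    refine arg_of_exp (inv_pos.2 hf') ?_ (by linarith) (by linarith)
    have : d / f = (f / d)⁻¹ := (inv_div f d).symm
    rw [this]
    conv_lhs => rw [e2]
    push_cast
    rw [sub_mul, Complex.exp_sub, Complex.exp_pi_mul_I, mul_inv]
    ring
  have a2 : Complex.arg (-(e / f)) = π + ccwAngle d e - ccwAngle d f := by
    refine arg_of_exp (div_pos he' hf') ?_ (by linarith) (by linarith)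
    have : e / f = (e / d) / (f / d) := (div_div_div_cancel_right₀ hd e f).symm
    rw [this]
    conv_lhs => rw [e1, e2]
    push_cast
    rw [sub_mul, add_mul, Complex.exp_sub, Complex.exp_add, Complex.exp_pi_mul_I,
      mul_div_mul_comm]
    ring
  rw [a1, a2]; linarith

theorem ccwAngle_scale {d e : ℂ} {r r' : ℝ} (hr : 0 < r) (hr' : 0 < r') :
    ccwAngle (r * d) (r' * e) = ccwAngle d e := by
  have : (r' * e) / (r * d) = ((r' / r : ℝ) : ℂ) * (e / d) := by
    push_cast; rw [mul_div_mul_comm]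
  unfold ccwAngle
  rw [this, Complex.arg_real_mul _ (div_pos hr' hr)]

theorem CCW.scale {d e f : ℂ} {r s t : ℝ} (hr : 0 < r) (hs : 0 < s) (ht : 0 < t)
    (h : CCW (r * d) (s * e) (t * f)) : CCW d e f := by
  unfold CCW at *
  rwa [ccwAngle_scale hr hs, ccwAngle_scale hr ht] at h

/-! ### Legs and chords -/

/-- the `k`-th vertex of the leg `a` -/
def pv (a : Fin 3) (k : ℕ) : Fin 19 :=
  if k = 0 then 0 else if h : k ≤ 6 then ⟨6 * a + k, by omega⟩ else 0

theorem pv_zero (a : Fin 3) : pv a 0 = 0 := by simp [pv]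

theorem pv_eq {a a' : Fin 3} {k k' : ℕ} (hk : k ≤ 6) (hk' : k' ≤ 6) (h : pv a k = pv a' k') :
    (k = 0 ∧ k' = 0) ∨ (a = a' ∧ k = k') := by
  unfold pv at h
  rw [Fin.ext_iff] at *
  split_ifs at h <;> simp at h <;> omega

section

variable {G : SimpleGraph (Fin 19)} {D : PolyDrawing (Fin 19)}

theorem inter_sub (hp : D.IsPlanarDrawingOf G) {u v w z x : Fin 19} (h1 : G.Adj u v)
    (h2 : G.Adj w z) (hne : s(u, v) ≠ s(w, z))
    (h : ∀ t, (t = u ∨ t = v) → (t = w ∨ t = z) → t = x) :
    trace (D.curve u v) ∩ trace (D.curve w z) ⊆ {D.pos x} := by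
  intro y hy
  obtain ⟨t, ⟨ht1, ht2⟩, rfl⟩ := hp.planar u v w z h1 h2 hne hy
  simp only [Set.mem_insert_iff, Set.mem_singleton_iff] at ht1 ht2
  rw [h t ht1 ht2]; rfl

theorem disj (hp : D.IsPlanarDrawingOf G) {u v w z : Fin 19} (h1 : G.Adj u v)
    (h2 : G.Adj w z) (h : ∀ t, (t = u ∨ t = v) → (t = w ∨ t = z) → False) :
    Disjoint (trace (D.curve u v)) (trace (D.curve w z)) := by
  have hne : s(u, v) ≠ s(w, z) := by
    intro e
    rcases Sym2.eq_iff.1 e with ⟨h3, _⟩ | ⟨h3, _⟩
    · exact h u (Or.inl rfl) (Or.inl h3)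
    · exact h u (Or.inl rfl) (Or.inr h3)
  rw [Set.disjoint_left]
  intro y hy1 hy2
  obtain ⟨t, ⟨ht1, ht2⟩, rfl⟩ := hp.planar u v w z h1 h2 hne ⟨hy1, hy2⟩
  simp only [Set.mem_insert_iff, Set.mem_singleton_iff] at ht1 ht2
  exact h t ht1 ht2

/-- the hypotheses on the shared spider -/
structure Base (D : PolyDrawing (Fin 19)) (G : SimpleGraph (Fin 19)) : Prop where
  inj : Function.Injective D.pos
  pl : D.IsPlanarDrawingOf G
  adj : ∀ a k, k < 6 → G.Adj (pv a k) (pv a (k + 1))
  str : ∀ a k, k < 6 → D.bends (pv a k) (pv a (k + 1)) = []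

theorem Base.str' (h : Base D G) (a : Fin 3) {k : ℕ} (hk : k < 6) :
    D.bends (pv a (k + 1)) (pv a k) = [] := by
  rw [h.pl.symm _ _ (h.adj a k hk), h.str a k hk]; rfl

theorem Base.trace_eq (h : Base D G) (a : Fin 3) {k : ℕ} (hk : k < 6) :
    trace (D.curve (pv a k) (pv a (k + 1)))
      = segment ℝ (D.pos (pv a k)) (D.pos (pv a (k + 1))) := by
  unfold PolyDrawing.curve
  rw [h.str a k hk]
  simp only [List.nil_append, trace]
  exact Set.union_eq_left.2 (Set.singleton_subset_iff.2 (right_mem_segment ℝ _ _))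

theorem Base.pos_ne (h : Base D G) (a : Fin 3) {k l : ℕ} (hk : k ≤ 6) (hl : l ≤ 6) (hkl : k ≠ l) :
    D.pos (pv a k) ≠ D.pos (pv a l) := by
  intro e
  have := pv_eq hk hl (h.inj e)
  omega

/-- a chord of a leg, with its bend -/
structure Chord (D : PolyDrawing (Fin 19)) (G : SimpleGraph (Fin 19)) (a : Fin 3) (i n : ℕ)
    (b : ℂ) : Prop where
  hi : 1 ≤ i
  hn : 2 ≤ n
  hj : i + n + 1 ≤ 6
  adj : G.Adj (pv a i) (pv a (i + n))
  tr : trace (D.curve (pv a i) (pv a (i + n)))
    = segment ℝ (D.pos (pv a i)) b ∪ segment ℝ b (D.pos (pv a (i + n)))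
  b1 : b ≠ D.pos (pv a i)
  b2 : b ≠ D.pos (pv a (i + n))
  b3 : segment ℝ (D.pos (pv a i)) b ∩ segment ℝ b (D.pos (pv a (i + n))) ⊆ {b}
  dir1 : ∃ r : ℝ, 0 < r ∧ D.dir (pv a i) (pv a (i + n)) = r * (b - D.pos (pv a i))
  dir2 : ∃ r : ℝ, 0 < r ∧ D.dir (pv a (i + n)) (pv a i) = r * (b - D.pos (pv a (i + n)))

theorem exists_chord (h : Base D G) {a : Fin 3} {i n : ℕ} (hi : 1 ≤ i) (hn : 2 ≤ n)
    (hj : i + n + 1 ≤ 6) (adj : G.Adj (pv a i) (pv a (i + n)))
    (hb : (D.bends (pv a i) (pv a (i + n))).length ≤ 1) : ∃ b, Chord D G a i n b := by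
  have hne : D.pos (pv a i) ≠ D.pos (pv a (i + n)) := h.pos_ne a (by omega) (by omega) (by omega)
  have hsym := h.pl.symm _ _ adj
  have hsim := h.pl.simple _ _ adj
  set p := D.pos (pv a i) with hp
  set q := D.pos (pv a (i + n)) with hq
  rcases hL : D.bends (pv a i) (pv a (i + n)) with _ | ⟨b, _ | ⟨c, l⟩⟩
  · -- straight edge
    have hqp : q - p ≠ 0 := sub_ne_zero.2 hne.symm
    set b : ℂ := (p + q) / 2 with hbdef
    have hbp : b - p = (q - p) / 2 := by rw [hbdef]; ring
    have hqb : q - b = (q - p) / 2 := by rw [hbdef]; ring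
    have hbs : b ∈ segment ℝ p q := mem_seg_iff.2 ⟨1/2, by norm_num, by norm_num, by
      rw [hbdef]; push_cast; ring⟩
    refine ⟨b, hi, hn, hj, adj, ?_, ?_, ?_, ?_, ?_, ?_⟩
    · unfold PolyDrawing.curve
      rw [hL]
      simp only [List.nil_append, trace, ← hp, ← hq]
      apply Set.Subset.antisymm
      · rintro z (hz | hz)
        · obtain ⟨t, h0, h1, rfl⟩ := mem_seg_iff.1 hz
          rcases le_total t (1/2) with ht | ht
          · left
            exact mem_seg_iff.2 ⟨2 * t, by linarith, by linarith, by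
              rw [hbp]; push_cast; ring⟩
          · right
            exact mem_seg_iff.2 ⟨2 * t - 1, by linarith, by linarith, by
              rw [hqb, hbdef]; push_cast; ring⟩
        · right
          rw [Set.mem_singleton_iff.1 hz]; exact right_mem_segment ℝ _ _
      · apply Set.union_subset
        · exact ((convex_segment p q).segment_subset (left_mem_segment ℝ _ _) hbs).trans
            Set.subset_union_left
        · exact ((convex_segment p q).segment_subset hbs (right_mem_segment ℝ _ _)).trans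
            Set.subset_union_left
    · intro e
      rw [← hp] at e
      rw [e, sub_self] at hbp
      exact hqp (by linear_combination -2 * hbp)
    · intro e
      rw [← hq] at e
      rw [e, sub_self] at hqb
      exact hqp (by linear_combination -2 * hqb)
    · rintro z ⟨hz1, hz2⟩
      obtain ⟨t, h0, h1, e1⟩ := mem_seg_iff.1 hz1
      obtain ⟨s, h0', h1', e2⟩ := mem_seg_iff.1 hz2
      rw [← hp] at e1
      rw [← hq] at e2
      rw [hbp] at e1
      rw [hqb] at e2
      have e3 : (q - p) * (((1 + s - t : ℝ) : ℂ)) = 0 := by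
        push_cast
        linear_combination 2 * e1 - 2 * e2 + 2 * hbp
      rcases mul_eq_zero.1 e3 with e4 | e4
      · exact absurd e4 hqp
      · have e5 : (1 + s - t : ℝ) = 0 := by exact_mod_cast e4
        have hs : s = 0 := by linarith
        rw [Set.mem_singleton_iff, e2, hs]
        simp
    · refine ⟨2, by norm_num, ?_⟩
      unfold PolyDrawing.dir
      rw [hL]
      simp only [← hp, ← hq]
      rw [hbp]; push_cast; ring
    · refine ⟨2, by norm_num, ?_⟩
      unfold PolyDrawing.dir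
      rw [hsym, hL]
      simp only [List.reverse_nil, ← hp, ← hq]
      have : b - q = - ((q - p) / 2) := by rw [← hqb]; ring
      rw [this]; push_cast; ring
  · -- one bend
    unfold PolyDrawing.curve at hsim
    rw [hL] at hsim
    simp only [List.cons_append, List.nil_append, IsSimple, trace, ← hp, ← hq] at hsim
    obtain ⟨s1, s2, s3, -⟩ := hsim
    have hu : segment ℝ b q ∪ {q} = segment ℝ b q :=
      Set.union_eq_left.2 (Set.singleton_subset_iff.2 (right_mem_segment ℝ _ _))
    rw [hu] at s2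
    refine ⟨b, hi, hn, hj, adj, ?_, s1.symm, s3, s2.subset, ?_, ?_⟩
    · unfold PolyDrawing.curve
      rw [hL]
      simp only [List.cons_append, List.nil_append, trace, ← hp, ← hq, hu]
    · refine ⟨1, one_pos, ?_⟩
      unfold PolyDrawing.dir
      rw [hL]
      simp [← hp]
    · refine ⟨1, one_pos, ?_⟩
      unfold PolyDrawing.dir
      rw [hsym, hL]
      simp [← hq]
  · rw [hL] at hb
    simp at hb

/-- the closed polygon formed by a chord and the part of the leg between its ends -/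
noncomputable def poly (D : PolyDrawing (Fin 19)) (a : Fin 3) (i n : ℕ) (b : ℂ) (k : ℕ) : ℂ :=
  if k ≤ n then D.pos (pv a (i + k)) else if k = n + 1 then b else D.pos (pv a i)

theorem poly_le {a : Fin 3} {i n k : ℕ} {b : ℂ} (h : k ≤ n) :
    poly D a i n b k = D.pos (pv a (i + k)) := by simp [poly, h]

theorem poly_bend {a : Fin 3} {i n : ℕ} {b : ℂ} : poly D a i n b (n + 1) = b := by simp [poly]

theorem poly_last {a : Fin 3} {i n : ℕ} {b : ℂ} : poly D a i n b (n + 2) = D.pos (pv a i) := by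
  simp [poly]

theorem poly_zero {a : Fin 3} {i n : ℕ} {b : ℂ} : poly D a i n b 0 = D.pos (pv a i) := by
  simp [poly]

/-- vertices of the polygon -/
def Rng (a : Fin 3) (i n : ℕ) (t : Fin 19) : Prop := ∃ k, k ≤ n ∧ t = pv a (i + k)

theorem cover (h : Base D G) {a : Fin 3} {i n : ℕ} {b : ℂ} (c : Chord D G a i n b) {k : ℕ}
    (hk : k < n + 2) : ∃ u v, G.Adj u v ∧ Rng a i n u ∧ Rng a i n v ∧
      segment ℝ (poly D a i n b k) (poly D a i n b (k + 1)) ⊆ trace (D.curve u v) := by
  have h3 := c.hj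
  rcases Nat.lt_trichotomy k n with h1 | h1 | h1
  · refine ⟨pv a (i + k), pv a (i + k + 1), h.adj a _ (by omega), ⟨k, by omega, rfl⟩,
      ⟨k + 1, by omega, rfl⟩, ?_⟩
    rw [h.trace_eq a (by omega), poly_le (by omega), poly_le (by omega)]
    exact subset_rfl
  · subst h1
    refine ⟨pv a i, pv a (i + k), c.adj, ⟨0, by omega, rfl⟩, ⟨k, le_rfl, rfl⟩, ?_⟩
    rw [c.tr, poly_le le_rfl, poly_bend, segment_symm]
    exact Set.subset_union_right
  · have : k = n + 1 := by omega
    subst this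
    refine ⟨pv a i, pv a (i + n), c.adj, ⟨0, by omega, rfl⟩, ⟨n, le_rfl, rfl⟩, ?_⟩
    rw [c.tr, poly_bend, poly_last, segment_symm]
    exact Set.subset_union_left

/-- moving along a curve of the drawing which avoids the polygon -/
theorem move (h : Base D G) {a : Fin 3} {i n : ℕ} {b : ℂ} (c : Chord D G a i n b)
    {w w' : Fin 19} {q q' : ℂ} (ha : G.Adj w w') (hw : ¬ Rng a i n w) (hw' : ¬ Rng a i n w')
    (hs : segment ℝ q q' ⊆ trace (D.curve w w')) :
    sweep q (poly D a i n b) 0 (n + 2) = sweep q' (poly D a i n b) 0 (n + 2) := by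
  apply wind_move
  · rw [poly_last, poly_zero]
  · intro k hk
    obtain ⟨u, v, huv, hu, hv, hsub⟩ := cover h c hk
    refine Set.disjoint_of_subset hs hsub (disj h.pl ha huv ?_)
    rintro t (rfl | rfl) (rfl | rfl)
    · exact hw hu
    · exact hw hv
    · exact hw' hu
    · exact hw' hv

theorem not_rng_other {a a' : Fin 3} (haa : a ≠ a') {i n k : ℕ} (hi : 1 ≤ i) (hj : i + n + 1 ≤ 6)
    (hk : k ≤ 6) : ¬ Rng a i n (pv a' k) := by
  rintro ⟨l, hl, e⟩
  rcases pv_eq hk (by omega) e with h | h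
  · omega
  · exact haa h.1.symm

theorem not_rng_below {a : Fin 3} {i n k : ℕ} (hi : 1 ≤ i) (hj : i + n + 1 ≤ 6)
    (hk : k < i) : ¬ Rng a i n (pv a k) := by
  rintro ⟨l, hl, e⟩
  rcases pv_eq (by omega) (by omega) e with h | h <;> omega

/-- walking from the centre along a leg -/
theorem walk (h : Base D G) {a : Fin 3} {i n : ℕ} {b : ℂ} (c : Chord D G a i n b)
    {a' : Fin 3} {k : ℕ} (hk : k ≤ 6) (hr : ∀ l, l ≤ k → ¬ Rng a i n (pv a' l)) :
    sweep (D.pos (pv a' k)) (poly D a i n b) 0 (n + 2)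
      = sweep (D.pos 0) (poly D a i n b) 0 (n + 2) := by
  induction k with
  | zero => rw [pv_zero]
  | succ k ih =>
    rw [← ih (by omega) (fun l hl => hr l (by omega))]
    refine (move h c (h.adj a' k (by omega)) (hr k (by omega)) (hr (k + 1) le_rfl) ?_).symm
    rw [h.trace_eq a' (by omega)]

/-- all corners of a polygon of another leg see the same winding as the centre -/
theorem corner_wind (h : Base D G) {a a' : Fin 3} (haa : a ≠ a') {i n i' n' : ℕ} {b b' : ℂ}
    (c : Chord D G a i n b) (c' : Chord D G a' i' n' b') {k : ℕ} (hk : k ≤ n' + 2) :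
    sweep (poly D a' i' n' b' k) (poly D a i n b) 0 (n + 2)
      = sweep (D.pos 0) (poly D a i n b) 0 (n + 2) := by
  have h1 := c.hi
  have h2 := c.hj
  have h1' := c'.hi
  have h2' := c'.hj
  have hn : ∀ l, l ≤ 6 → ¬ Rng a i n (pv a' l) := fun l hl => not_rng_other haa h1 h2 hl
  rcases Nat.lt_trichotomy k (n' + 1) with h3 | h3 | h3
  · rw [poly_le (by omega)]
    exact walk h c (by omega) (fun l hl => hn l (by omega))
  · subst h3
    rw [poly_bend, ← walk h c (a' := a') (k := i') (by omega) (fun l hl => hn l (by omega))]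
    refine (move h c c'.adj (hn _ (by omega)) (hn _ (by omega)) ?_).symm
    rw [c'.tr]
    exact Set.subset_union_left
  · have : k = n' + 2 := by omega
    subst this
    rw [poly_last]
    exact walk h c (by omega) (fun l hl => hn l (by omega))

theorem poly_disj (h : Base D G) {a a' : Fin 3} (haa : a ≠ a') {i n i' n' : ℕ} {b b' : ℂ}
    (c : Chord D G a i n b) (c' : Chord D G a' i' n' b') {k l : ℕ} (hk : k ≤ n + 2)
    (hl : l ≤ n' + 2) : poly D a i n b k ≠ poly D a' i' n' b' l := by
  have key : ∀ k l, k < n + 2 → l < n' + 2 → poly D a i n b k ≠ poly D a' i' n' b' l := by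
    intro k l hk hl e
    obtain ⟨u, v, huv, hu, hv, hsub⟩ := cover h c hk
    obtain ⟨u', v', huv', hu', hv', hsub'⟩ := cover h c' hl
    have hcross : ∀ t, Rng a i n t → Rng a' i' n' t → False := by
      rintro t ⟨x, hx, rfl⟩ ⟨y, hy, e⟩
      have h1 := c.hi
      have h2 := c.hj
      have h2' := c'.hj
      rcases pv_eq (by omega) (by omega) e with h | h
      · omega
      · exact haa h.1
    have hd := disj h.pl huv huv' (by
      rintro t (rfl | rfl) (rfl | rfl)
      · exact hcross _ hu hu'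
      · exact hcross _ hu hv'
      · exact hcross _ hv hu'
      · exact hcross _ hv hv')
    refine Set.disjoint_left.1 hd (hsub (left_mem_segment ℝ _ _)) ?_
    rw [e]
    exact hsub' (left_mem_segment ℝ _ _)
  have e1 : ∀ k, k ≤ n + 2 → ∃ k', k' < n + 2 ∧ poly D a i n b k = poly D a i n b k' := by
    intro k hk
    rcases hk.lt_or_eq with h1 | h1
    · exact ⟨k, h1, rfl⟩
    · exact ⟨0, by omega, by rw [h1, poly_last, poly_zero]⟩
  have e2 : ∀ k, k ≤ n' + 2 → ∃ k', k' < n' + 2 ∧ poly D a' i' n' b' k = poly D a' i' n' b' k' := by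
    intro k hk
    rcases hk.lt_or_eq with h1 | h1
    · exact ⟨k, h1, rfl⟩
    · exact ⟨0, by omega, by rw [h1, poly_last, poly_zero]⟩
  obtain ⟨k', hk', ek⟩ := e1 k hk
  obtain ⟨l', hl', el⟩ := e2 l hl
  rw [ek, el]
  exact key k' l' hk' hl'

/-- the winding sum of the polygon around the centre -/
noncomputable def wind0 (D : PolyDrawing (Fin 19)) (a : Fin 3) (i n : ℕ) (b : ℂ) : ℝ :=
  sweep (D.pos 0) (poly D a i n b) 0 (n + 2)

theorem not_both_legs (h : Base D G) {a a' : Fin 3} (haa : a ≠ a') {i n i' n' : ℕ} {b b' : ℂ}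
    (c : Chord D G a i n b) (c' : Chord D G a' i' n' b') :
    wind0 D a i n b = 0 ∨ wind0 D a' i' n' b' = 0 := by
  by_contra hcon
  push Not at hcon
  obtain ⟨h1, h2⟩ := hcon
  refine not_both (z := poly D a i n b) (z' := poly D a' i' n' b') (N := n + 2) (N' := n' + 2)
    (by rw [poly_last, poly_zero]) (by rw [poly_last, poly_zero])
    (fun k l hk hl => poly_disj h haa c c' hk hl) ?_ ?_
  · intro l hl
    rw [corner_wind h haa c c' hl]; exact h1
  · intro k hk
    rw [corner_wind h haa.symm c' c hk]; exact h2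

theorem hyp_of_chord (h : Base D G) {a : Fin 3} {i n : ℕ} {b : ℂ} (c : Chord D G a i n b)
    (hw : wind0 D a i n b = 0) : Hyp (poly D a i n b) n (D.pos (pv a (i - 1))) := by
  have hi := c.hi
  have hn := c.hn
  have hj := c.hj
  have hPb : D.pos (pv a i) ∉ segment ℝ b (D.pos (pv a (i + n))) := fun hm =>
    c.b1 (c.b3 ⟨left_mem_segment ℝ _ _, hm⟩).symm
  have hQb : D.pos (pv a (i + n)) ∉ segment ℝ (D.pos (pv a i)) b := fun hm =>
    c.b2 (c.b3 ⟨hm, right_mem_segment ℝ _ _⟩).symm
  have hsub1 : segment ℝ (D.pos (pv a i)) b ⊆ trace (D.curve (pv a i) (pv a (i + n))) := by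
    rw [c.tr]; exact Set.subset_union_left
  have hsub2 : segment ℝ b (D.pos (pv a (i + n))) ⊆ trace (D.curve (pv a i) (pv a (i + n))) := by
    rw [c.tr]; exact Set.subset_union_right
  -- intersections of two path edges
  have pp : ∀ k l, k < 6 → l < 6 → k + 1 < l → Disjoint
      (segment ℝ (D.pos (pv a k)) (D.pos (pv a (k + 1))))
      (segment ℝ (D.pos (pv a l)) (D.pos (pv a (l + 1)))) := by
    intro k l hk hl hkl
    rw [← h.trace_eq a hk, ← h.trace_eq a hl]
    refine disj h.pl (h.adj a k hk) (h.adj a l hl) ?_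
    rintro t (rfl | rfl) (e | e) <;> have := pv_eq (by omega) (by omega) e <;> omega
  have pp1 : ∀ k, k + 1 < 6 →
      segment ℝ (D.pos (pv a k)) (D.pos (pv a (k + 1)))
        ∩ segment ℝ (D.pos (pv a (k + 1))) (D.pos (pv a (k + 2))) ⊆ {D.pos (pv a (k + 1))} := by
    intro k hk
    rw [← h.trace_eq a (by omega), ← h.trace_eq a hk]
    refine inter_sub h.pl (h.adj a k (by omega)) (h.adj a (k + 1) hk) ?_ ?_
    · intro e
      rcases Sym2.eq_iff.1 e with ⟨e1, _⟩ | ⟨e1, _⟩ <;>
        have := pv_eq (by omega) (by omega) e1 <;> omega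
    · rintro t (rfl | rfl) (e | e)
      · have := pv_eq (by omega) (by omega) e; omega
      · have := pv_eq (by omega) (by omega) e; omega
      · rfl
      · rfl
  -- path edge against the chord
  have pc : ∀ k, k < 6 → (∀ t, (t = k ∨ t = k + 1) → t ≠ i ∧ t ≠ i + n) → Disjoint
      (segment ℝ (D.pos (pv a k)) (D.pos (pv a (k + 1))))
      (trace (D.curve (pv a i) (pv a (i + n)))) := by
    intro k hk ht
    rw [← h.trace_eq a hk]
    have t1 := ht k (Or.inl rfl)
    have t2 := ht (k + 1) (Or.inr rfl)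
    refine disj h.pl (h.adj a k hk) c.adj ?_
    rintro t (rfl | rfl) (e | e) <;> have := pv_eq (by omega) (by omega) e <;> omega
  have pc' : ∀ k x, k < 6 → (∀ t, (t = k ∨ t = k + 1) → (t = i ∨ t = i + n) → t = x) →
      segment ℝ (D.pos (pv a k)) (D.pos (pv a (k + 1))) ∩
      trace (D.curve (pv a i) (pv a (i + n))) ⊆ {D.pos (pv a x)} := by
    intro k x hk ht
    rw [← h.trace_eq a hk]
    refine inter_sub h.pl (h.adj a k hk) c.adj ?_ ?_
    · intro e
      rcases Sym2.eq_iff.1 e with ⟨e1, e2⟩ | ⟨e1, e2⟩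
      · have := pv_eq (by omega) (by omega) e1
        have := pv_eq (by omega) (by omega) e2
        omega
      · have := pv_eq (by omega) (by omega) e1
        have := pv_eq (by omega) (by omega) e2
        omega
    · rintro t (rfl | rfl) (e | e)
      · have := pv_eq (by omega) (by omega) e
        rw [ht k (Or.inl rfl) (Or.inl (by omega))]
      · have := pv_eq (by omega) (by omega) e
        rw [ht k (Or.inl rfl) (Or.inr (by omega))]
      · have := pv_eq (by omega) (by omega) e
        rw [ht (k + 1) (Or.inr rfl) (Or.inl (by omega))]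
      · have := pv_eq (by omega) (by omega) e
        rw [ht (k + 1) (Or.inr rfl) (Or.inr (by omega))]
  have hne : ∀ k, k ≤ n → poly D a i n b (k + 1) ≠ poly D a i n b k := by
    intro k hk
    rcases hk.lt_or_eq with h1 | h1
    · rw [poly_le (by omega), poly_le (by omega)]
      exact h.pos_ne a (by omega) (by omega) (by omega)
    · subst h1
      rw [poly_bend, poly_le le_rfl]
      exact c.b2
  refine ⟨hn, ?_, hne, ?_, ?_, ?_, ?_, ?_, ?_, ?_, ?_, ?_, ?_⟩
  · -- hd
    intro k l hkl hl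
    rcases hl.lt_or_eq with h1 | h1
    · rw [poly_le (by omega), poly_le (by omega), poly_le (by omega), poly_le (by omega)]
      exact (pp (i + k) (i + l) (by omega) (by omega) (by omega)).symm
    · subst h1
      rw [poly_le le_rfl, poly_bend, poly_le (by omega), poly_le (by omega), segment_symm]
      rcases Nat.eq_zero_or_pos k with h2 | h2
      · subst h2
        rw [Set.disjoint_left]
        intro z hz1 hz2
        have := pc' (i + 0) i (by omega) (by intro t _ _; omega) ⟨hz2, hsub2 hz1⟩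
        rw [Set.mem_singleton_iff] at this
        rw [this] at hz1
        exact hPb hz1
      · exact ((pc (i + k) (by omega) (by intro t ht; omega)).mono_right hsub2).symm
  · -- ht
    intro k hk
    refine turn_ne_pi (hne k (by omega)) (hne (k + 1) (by omega)) ?_
    rcases Nat.lt_or_ge (k + 1) n with h1 | h1
    · rw [poly_le (by omega), poly_le (by omega), poly_le (by omega)]
      exact pp1 (i + k) (by omega)
    · have : n = k + 1 := by omega
      subst this
      rw [poly_le (by omega), poly_le le_rfl, poly_bend]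
      rw [segment_symm ℝ _ b]
      exact (Set.inter_subset_inter_right _ hsub2).trans
        (pc' (i + k) (i + (k + 1)) (by omega) (by intro t _ _; omega))
  · -- hbp
    rw [poly_bend, poly_zero]; exact c.b1
  · -- hc
    intro k h1 h2
    rw [poly_bend, poly_zero, poly_le (by omega), poly_le (by omega), segment_symm]
    rw [Set.disjoint_left]
    intro z hz1 hz2
    have := pc' (i + k) (i + n) (by omega) (by intro t _ _; omega) ⟨hz2, hsub1 hz1⟩
    rw [Set.mem_singleton_iff] at this
    rw [this] at hz1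
    exact hQb hz1
  · -- hc0
    rw [poly_bend, poly_zero, poly_le (by omega), segment_symm, Set.inter_comm]
    exact (Set.inter_subset_inter_right _ hsub1).trans
      (pc' i i (by omega) (by intro t _ _; omega))
  · -- hcn
    rw [poly_bend, poly_zero, poly_le le_rfl]
    rintro z ⟨h1, h2⟩
    exact c.b3 ⟨by rw [segment_symm]; exact h2, by rw [segment_symm]; exact h1⟩
  · -- hqp
    rw [poly_zero]
    exact h.pos_ne a (by omega) (by omega) (by omega)
  · -- hq
    obtain ⟨i, rfl⟩ : ∃ i', i = i' + 1 := ⟨i - 1, by omega⟩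
    intro k h1 h2
    rw [poly_zero, Nat.add_sub_cancel]
    rcases h2.lt_or_eq with h3 | h3
    · rw [poly_le (by omega), poly_le (by omega)]
      exact pp i (i + 1 + k) (by omega) (by omega) (by omega)
    · subst h3
      rw [poly_le le_rfl, poly_bend, segment_symm ℝ _ b]
      rw [Set.disjoint_left]
      intro z hz1 hz2
      have := pc' i (i + 1) (by omega) (by intro t _ _; omega) ⟨hz1, hsub2 hz2⟩
      rw [Set.mem_singleton_iff] at this
      rw [this] at hz2
      exact hPb hz2
  · -- hq0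
    obtain ⟨i, rfl⟩ : ∃ i', i = i' + 1 := ⟨i - 1, by omega⟩
    rw [poly_zero, Nat.add_sub_cancel, poly_le (by omega)]
    exact pp1 i (by omega)
  · -- hqb
    obtain ⟨i, rfl⟩ : ∃ i', i = i' + 1 := ⟨i - 1, by omega⟩
    rw [poly_zero, Nat.add_sub_cancel, poly_bend]
    exact (Set.inter_subset_inter_right _ hsub1).trans
      (pc' i (i + 1) (by omega) (by intro t _ _; omega))
  · -- hW
    have h1 := walk h c (a' := a) (k := i - 1) (by omega)
      (fun l hl => not_rng_below hi hj (by omega))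
    have h2 : sweep (D.pos (pv a (i - 1))) (poly D a i n b) 0 (n + 2) = 0 := by
      rw [h1]; exact hw
    rw [sweep_succ _ _ (Nat.zero_le _), poly_last] at h2
    rw [poly_zero]
    exact h2

theorem Base.dir_up (h : Base D G) (a : Fin 3) {k : ℕ} (hk : k < 6) :
    D.dir (pv a k) (pv a (k + 1)) = D.pos (pv a (k + 1)) - D.pos (pv a k) := by
  unfold PolyDrawing.dir
  rw [h.str a k hk]

theorem Base.dir_down (h : Base D G) (a : Fin 3) {k : ℕ} (hk : k < 6) :
    D.dir (pv a (k + 1)) (pv a k) = D.pos (pv a k) - D.pos (pv a (k + 1)) := by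
  unfold PolyDrawing.dir
  rw [h.str' a hk]

/-- comparison of turning angles at an end of a chord -/
theorem turn_lt {p x y q d e f : ℂ} {r : ℝ} (hr : 0 < r) (hx : x ≠ p) (hy : y ≠ p) (hq : q ≠ p)
    (hd : d = x - p) (he : e = r * (y - p)) (hf : f = q - p) (h : CCW d e f) :
    turn q p x < turn q p y := by
  have h' : CCW (x - p) (y - p) (q - p) := by
    refine CCW.scale one_pos hr one_pos ?_
    simpa [← hd, ← he, ← hf] using h
  have := h'.arg_lt (sub_ne_zero.2 hx) (sub_ne_zero.2 hy) (sub_ne_zero.2 hq)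
  unfold turn
  have e1 : ∀ z : ℂ, z / (p - q) = -(z / (q - p)) := by
    intro z; rw [← div_neg, neg_sub]
  rw [e1, e1]
  exact this

theorem turn_lt' {p x y q d e f : ℂ} {r : ℝ} (hr : 0 < r) (hx : x ≠ p) (hy : y ≠ p) (hq : q ≠ p)
    (hd : d = r * (x - p)) (he : e = y - p) (hf : f = q - p) (h : CCW d e f) :
    turn q p x < turn q p y := by
  have h' : CCW (x - p) (y - p) (q - p) := by
    refine CCW.scale hr one_pos one_pos ?_
    simpa [← hd, ← he, ← hf] using h
  have := h'.arg_lt (sub_ne_zero.2 hx) (sub_ne_zero.2 hy) (sub_ne_zero.2 hq)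
  unfold turn
  have e1 : ∀ z : ℂ, z / (p - q) = -(z / (q - p)) := by
    intro z; rw [← div_neg, neg_sub]
  rw [e1, e1]
  exact this

theorem sum_poly {a : Fin 3} {i n : ℕ} {b : ℂ} (hn : 2 ≤ n) :
    ∑ k ∈ Finset.range (n - 1), turn (poly D a i n b k) (poly D a i n b (k + 1))
        (poly D a i n b (k + 2))
      = ∑ k ∈ Finset.range (n - 1), turn (D.pos (pv a (i + k))) (D.pos (pv a (i + k + 1)))
        (D.pos (pv a (i + k + 2))) := by
  refine Finset.sum_congr rfl (fun k hk => ?_)
  have := Finset.mem_range.1 hk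
  rw [poly_le (by omega), poly_le (by omega), poly_le (by omega)]
  rfl

/-- a chord leaving its first end on the left and entering its second end on the right -/
theorem left_chord (h : Base D G) {a : Fin 3} {i n : ℕ} {b : ℂ}
    (c : Chord D G a (i + 1) (n + 2) b) (hw : wind0 D a (i + 1) (n + 2) b = 0)
    (r1 : CCW (D.dir (pv a (i + 1)) (pv a (i + 2)))
      (D.dir (pv a (i + 1)) (pv a (i + 1 + (n + 2)))) (D.dir (pv a (i + 1)) (pv a i)))
    (r2 : CCW (D.dir (pv a (i + 1 + (n + 2))) (pv a (i + 1)))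
      (D.dir (pv a (i + 1 + (n + 2))) (pv a (i + 1 + (n + 2) + 1)))
      (D.dir (pv a (i + 1 + (n + 2))) (pv a (i + 1 + (n + 1))))) :
    0 < ∑ k ∈ Finset.range (n + 1), turn (D.pos (pv a (i + 1 + k)))
        (D.pos (pv a (i + 1 + k + 1))) (D.pos (pv a (i + 1 + k + 2)))
      + turn (D.pos (pv a (i + 1 + (n + 1)))) (D.pos (pv a (i + 1 + (n + 2))))
        (D.pos (pv a (i + 1 + (n + 2) + 1))) := by
  have hj := c.hj
  obtain ⟨r, hr, hd1⟩ := c.dir1
  obtain ⟨r', hr', hd2⟩ := c.dir2
  have H := hyp_of_chord h c hw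
  have := H.left (s := D.pos (pv a (i + 1 + (n + 2) + 1))) ?_ ?_
  · rw [sum_poly (by omega)] at this
    rw [show n + 2 - 1 = n + 1 from rfl, poly_le (by omega), poly_le le_rfl] at this
    exact this
  · rw [poly_zero, poly_le (by omega), poly_bend, Nat.add_sub_cancel]
    exact turn_lt hr (h.pos_ne a (by omega) (by omega) (by omega)) c.b1
      (h.pos_ne a (by omega) (by omega) (by omega)) (h.dir_up a (by omega)) hd1
      (h.dir_down a (by omega)) r1
  · rw [show n + 2 - 1 = n + 1 from rfl, poly_le (by omega), poly_le le_rfl, poly_bend]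
    exact turn_lt' hr' c.b2 (h.pos_ne a (by omega) (by omega) (by omega))
      (h.pos_ne a (by omega) (by omega) (by omega)) hd2 (h.dir_up a (by omega))
      (h.dir_down a (by omega)) r2

/-- a chord leaving its first end on the right and entering its second end on the left -/
theorem right_chord (h : Base D G) {a : Fin 3} {i n : ℕ} {b : ℂ}
    (c : Chord D G a (i + 1) (n + 2) b) (hw : wind0 D a (i + 1) (n + 2) b = 0)
    (r1 : CCW (D.dir (pv a (i + 1)) (pv a (i + 1 + (n + 2))))
      (D.dir (pv a (i + 1)) (pv a (i + 2))) (D.dir (pv a (i + 1)) (pv a i)))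
    (r2 : CCW (D.dir (pv a (i + 1 + (n + 2))) (pv a (i + 1 + (n + 2) + 1)))
      (D.dir (pv a (i + 1 + (n + 2))) (pv a (i + 1)))
      (D.dir (pv a (i + 1 + (n + 2))) (pv a (i + 1 + (n + 1))))) :
    ∑ k ∈ Finset.range (n + 1), turn (D.pos (pv a (i + 1 + k)))
        (D.pos (pv a (i + 1 + k + 1))) (D.pos (pv a (i + 1 + k + 2)))
      + turn (D.pos (pv a (i + 1 + (n + 1)))) (D.pos (pv a (i + 1 + (n + 2))))
        (D.pos (pv a (i + 1 + (n + 2) + 1))) < 0 := by
  have hj := c.hj
  obtain ⟨r, hr, hd1⟩ := c.dir1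
  obtain ⟨r', hr', hd2⟩ := c.dir2
  have H := hyp_of_chord h c hw
  have := H.right (s := D.pos (pv a (i + 1 + (n + 2) + 1))) ?_ ?_
  · rw [sum_poly (by omega)] at this
    rw [show n + 2 - 1 = n + 1 from rfl, poly_le (by omega), poly_le le_rfl] at this
    exact this
  · rw [poly_zero, poly_bend, poly_le (k := 1) (by omega), Nat.add_sub_cancel]
    exact turn_lt' hr c.b1 (h.pos_ne a (by omega) (by omega) (by omega))
      (h.pos_ne a (by omega) (by omega) (by omega)) hd1 (h.dir_up a (by omega))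
      (h.dir_down a (by omega)) r1
  · rw [show n + 2 - 1 = n + 1 from rfl, poly_le (by omega), poly_le le_rfl, poly_bend]
    exact turn_lt hr' (h.pos_ne a (by omega) (by omega) (by omega)) c.b2
      (h.pos_ne a (by omega) (by omega) (by omega)) (h.dir_up a (by omega)) hd2
      (h.dir_down a (by omega)) r2

end

/-! ### The counterexample -/

theorem shared_path : ∀ (a : Fin 3) (k : ℕ), k < 6 → (G₁ ⊓ G₂).Adj (pv a k) (pv a (k + 1)) := by
  intro a k hk
  rw [SimpleGraph.inf_adj]
  interval_cases k <;> revert a <;> decide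

theorem base₁ {D : PolyDrawing (Fin 19)} (h : IsSimultaneousDrawing R₁ R₂ D)
    (hb : HasBends G₁ G₂ 0 1 D) : Base D G₁ where
  inj := h.injective
  pl := h.planar₁
  adj a k hk := (shared_path a k hk).1
  str a k hk := List.length_eq_zero_iff.1 (Nat.le_zero.1 (hb.1 _ _ (shared_path a k hk)))

theorem base₂ {D : PolyDrawing (Fin 19)} (h : IsSimultaneousDrawing R₁ R₂ D)
    (hb : HasBends G₁ G₂ 0 1 D) : Base D G₂ where
  inj := h.injective
  pl := h.planar₂
  adj a k hk := (shared_path a k hk).2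
  str a k hk := List.length_eq_zero_iff.1 (Nat.le_zero.1 (hb.1 _ _ (shared_path a k hk)))

/-- the initial direction of an edge is nonzero -/
theorem dir_ne {G : SimpleGraph (Fin 19)} {D : PolyDrawing (Fin 19)}
    (hp : D.IsPlanarDrawingOf G) {u v : Fin 19} (h : G.Adj u v) : D.dir u v ≠ 0 := by
  have hs := hp.simple u v h
  unfold PolyDrawing.curve at hs
  unfold PolyDrawing.dir
  rcases hL : D.bends u v with _ | ⟨b, l⟩
  · rw [hL] at hs
    exact sub_ne_zero.2 hs.1.symm
  · rw [hL] at hs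
    simp only [List.cons_append, IsSimple] at hs
    exact sub_ne_zero.2 hs.1.symm

theorem adj13 : ∀ a : Fin 3, G₁.Adj (pv a 1) (pv a (1 + 2)) := by decide
theorem adj35 : ∀ a : Fin 3, G₁.Adj (pv a 3) (pv a (3 + 2)) := by decide
theorem adj15 : ∀ a : Fin 3, G₂.Adj (pv a 1) (pv a (1 + 4)) := by decide
theorem nadj13 : ∀ a : Fin 3, ¬ (G₁.Adj (pv a 1) (pv a (1 + 2)) ∧ G₂.Adj (pv a 1) (pv a (1 + 2))) := by
  decide
theorem nadj35 : ∀ a : Fin 3, ¬ (G₁.Adj (pv a 3) (pv a (3 + 2)) ∧ G₂.Adj (pv a 3) (pv a (3 + 2))) := by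
  decide
theorem nadj15 : ∀ a : Fin 3, ¬ (G₁.Adj (pv a 1) (pv a (1 + 4)) ∧ G₂.Adj (pv a 1) (pv a (1 + 4))) := by
  decide

theorem sub1 : ∀ a : Fin 3, [pv a 2, pv a 3, pv a 0].Sublist (rot₁ (pv a 1)) := by decide
theorem sub2 : ∀ a : Fin 3, [pv a 4, pv a 2, pv a 1].Sublist (rot₁ (pv a 3)) := by decide
theorem sub3 : ∀ a : Fin 3, [pv a 4, pv a 5, pv a 2].Sublist (rot₁ (pv a 3)) := by decide
theorem sub4 : ∀ a : Fin 3, [pv a 6, pv a 4, pv a 3].Sublist (rot₁ (pv a 5)) := by decide
theorem sub5 : ∀ a : Fin 3, [pv a 2, pv a 0, pv a 5].Sublist (rot₂ (pv a 1)) := by decide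
theorem sub6 : ∀ a : Fin 3, [pv a 6, pv a 1, pv a 4].Sublist (rot₂ (pv a 5)) := by decide

theorem adjs1 : ∀ a : Fin 3, G₁.Adj (pv a 3) (pv a 4) ∧ G₁.Adj (pv a 3) (pv a 2) ∧
    G₁.Adj (pv a 3) (pv a 1) := by decide
theorem adjs2 : ∀ a : Fin 3, G₁.Adj (pv a 5) (pv a 6) ∧ G₁.Adj (pv a 5) (pv a 4) ∧
    G₁.Adj (pv a 5) (pv a 3) := by decide
theorem adjs3 : ∀ a : Fin 3, G₂.Adj (pv a 1) (pv a 2) ∧ G₂.Adj (pv a 1) (pv a 0) ∧
    G₂.Adj (pv a 1) (pv a 5) := by decide

theorem rotate2 {G : SimpleGraph (Fin 19)} {D : PolyDrawing (Fin 19)}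
    (hp : D.IsPlanarDrawingOf G) {v x y z : Fin 19} (hx : G.Adj v x) (hy : G.Adj v y)
    (hz : G.Adj v z) (h : CCW (D.dir v x) (D.dir v y) (D.dir v z)) :
    CCW (D.dir v z) (D.dir v x) (D.dir v y) :=
  (h.rotate (dir_ne hp hx) (dir_ne hp hy) (dir_ne hp hz)).rotate (dir_ne hp hy) (dir_ne hp hz)
    (dir_ne hp hx)

theorem pigeon {p q : Fin 3 → Prop} (hp : ∀ a a', a ≠ a' → p a ∨ p a')
    (hq : ∀ a a', a ≠ a' → q a ∨ q a') : ∃ a, p a ∧ q a := by
  have y1 := hp 0 1 (by decide)
  have y2 := hp 0 2 (by decide)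
  have y3 := hp 1 2 (by decide)
  have z1 := hq 0 1 (by decide)
  have z2 := hq 0 2 (by decide)
  have z3 := hq 1 2 (by decide)
  by_cases p0 : p 0 <;> by_cases p1 : p 1 <;> by_cases p2 : p 2 <;>
    by_cases q0 : q 0 <;> by_cases q1 : q 1 <;> by_cases q2 : q 2 <;>
    first
      | exact ⟨0, p0, q0⟩
      | exact ⟨1, p1, q1⟩
      | exact ⟨2, p2, q2⟩
      | (exfalso; simp only [p0, p1, p2, q0, q1, q2, or_false, or_true, or_self] at y1 y2 y3 z1 z2 z3)

theorem no_drawing (D : PolyDrawing (Fin 19)) (h : IsSimultaneousDrawing R₁ R₂ D)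
    (hb : HasBends G₁ G₂ 0 1 D) : False := by
  have B₁ := base₁ h hb
  have B₂ := base₂ h hb
  have h13 : ∀ a, ∃ b, Chord D G₁ a 1 2 b := fun a =>
    exists_chord B₁ (by norm_num) (by norm_num) (by norm_num) (adj13 a)
      (hb.2 _ _ (Or.inl (adj13 a)) (nadj13 a))
  have h35 : ∀ a, ∃ b, Chord D G₁ a 3 2 b := fun a =>
    exists_chord B₁ (by norm_num) (by norm_num) (by norm_num) (adj35 a)
      (hb.2 _ _ (Or.inl (adj35 a)) (nadj35 a))
  have h15 : ∀ a, ∃ b, Chord D G₂ a 1 4 b := fun a =>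
    exists_chord B₂ (by norm_num) (by norm_num) (by norm_num) (adj15 a)
      (hb.2 _ _ (Or.inr (adj15 a)) (nadj15 a))
  choose b13 c13 using h13
  choose b35 c35 using h35
  choose b15 c15 using h15
  -- a good leg
  have good1 : ∀ a a' : Fin 3, a ≠ a' →
      (wind0 D a 1 2 (b13 a) = 0 ∧ wind0 D a 3 2 (b35 a) = 0) ∨
      (wind0 D a' 1 2 (b13 a') = 0 ∧ wind0 D a' 3 2 (b35 a') = 0) := by
    intro a a' haa
    have e1 := not_both_legs B₁ haa (c13 a) (c13 a')
    have e2 := not_both_legs B₁ haa (c13 a) (c35 a')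
    have e3 := not_both_legs B₁ haa (c35 a) (c13 a')
    have e4 := not_both_legs B₁ haa (c35 a) (c35 a')
    rcases e1 with e1 | e1
    · rcases e3 with e3 | e3
      · exact Or.inl ⟨e1, e3⟩
      · rcases e2 with e2 | e2
        · rcases e4 with e4 | e4
          · exact Or.inl ⟨e2, e4⟩
          · exact Or.inr ⟨e3, e4⟩
        · exact Or.inr ⟨e3, e2⟩
    · rcases e2 with e2 | e2
      · rcases e4 with e4 | e4
        · exact Or.inl ⟨e2, e4⟩
        · exact Or.inr ⟨e1, e4⟩
      · exact Or.inr ⟨e1, e2⟩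
  have good2 : ∀ a a' : Fin 3, a ≠ a' →
      wind0 D a 1 4 (b15 a) = 0 ∨ wind0 D a' 1 4 (b15 a') = 0 :=
    fun a a' haa => not_both_legs B₂ haa (c15 a) (c15 a')
  obtain ⟨a, ⟨w1, w2⟩, w3⟩ := pigeon good1 good2
  have rr1 : ∀ v x y z : Fin 19, [x, y, z].Sublist (rot₁ v) →
      CCW (D.dir v x) (D.dir v y) (D.dir v z) := fun v x y z hs => h.realises₁ v x y z hs
  have rr2 : ∀ v x y z : Fin 19, [x, y, z].Sublist (rot₂ v) →
      CCW (D.dir v x) (D.dir v y) (D.dir v z) := fun v x y z hs => h.realises₂ v x y z hs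
  have q1 := rr1 _ _ _ _ (sub1 a)
  have q2 := rotate2 B₁.pl (adjs1 a).1 (adjs1 a).2.1 (adjs1 a).2.2
      (rr1 _ _ _ _ (sub2 a))
  have q3 := rr1 _ _ _ _ (sub3 a)
  have q4 := rotate2 B₁.pl (adjs2 a).1 (adjs2 a).2.1 (adjs2 a).2.2
      (rr1 _ _ _ _ (sub4 a))
  have q5 := rotate2 B₂.pl (adjs3 a).1 (adjs3 a).2.1 (adjs3 a).2.2
      (rr2 _ _ _ _ (sub5 a))
  have q6 := rr2 _ _ _ _ (sub6 a)
  have L1 := left_chord (i := 0) (n := 0) B₁ (c13 a) w1 q1 q2
  have L2 := left_chord (i := 2) (n := 0) B₁ (c35 a) w2 q3 q4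
  have L3 := right_chord (i := 0) (n := 2) B₂ (c15 a) w3 q5 q6
  simp only [Finset.sum_range_succ, Finset.sum_range_zero, zero_add, Nat.reduceAdd, add_zero]
    at L1 L2 L3
  linarith

/-! ### The rotation systems are planar and compatible -/

def par (v : Fin 19) : Fin 19 :=
  if v = 0 ∨ v = 1 ∨ v = 7 ∨ v = 13 then 0 else ⟨v.1 - 1, by omega⟩

theorem par_spec : ∀ v : Fin 19, v ≠ 0 → ((G₁.Adj v (par v) ∧ G₂.Adj v (par v)) ∧ par v < v) := by
  decide

theorem connected_inf : (G₁ ⊓ G₂).Connected := by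
  have hr : ∀ v : Fin 19, (G₁ ⊓ G₂).Reachable v 0 := by
    intro v
    induction v using WellFoundedLT.induction with
    | ind v ih =>
      by_cases hv : v = 0
      · subst hv; exact SimpleGraph.Reachable.refl _
      · obtain ⟨h1, h2⟩ := par_spec v hv
        exact (SimpleGraph.Adj.reachable (show (G₁ ⊓ G₂).Adj v (par v) from h1)).trans
          (ih _ h2)
  exact { preconnected := fun u v => (hr u).trans (hr v).symm
          nonempty := ⟨0⟩ }

theorem connected₁ : G₁.Connected := connected_inf.mono inf_le_left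
theorem connected₂ : G₂.Connected := connected_inf.mono inf_le_right

theorem card_edges₁ : Nat.card G₁.edgeSet = 24 := by
  have h := G₁.sum_degrees_eq_twice_card_edges
  have h2 : ∑ v : Fin 19, G₁.degree v = 48 := by decide +kernel
  rw [h2] at h
  rw [Nat.card_eq_fintype_card, ← SimpleGraph.edgeFinset_card]
  omega

theorem card_edges₂ : Nat.card G₂.edgeSet = 21 := by
  have h := G₂.sum_degrees_eq_twice_card_edges
  have h2 : ∑ v : Fin 19, G₂.degree v = 42 := by decide +kernel
  rw [h2] at h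
  rw [Nat.card_eq_fintype_card, ← SimpleGraph.edgeFinset_card]
  omega

/-- counting the classes of a relation -/
theorem card_quot {α : Type} (r : α → α → Prop) {m : ℕ} (lab : α → Fin m) (idx : α → ℕ)
    (rep : Fin m → α) (h1 : ∀ x y, r x y → lab x = lab y) (h2 : ∀ c, lab (rep c) = c)
    (h3 : ∀ x, x = rep (lab x) ∨ ∃ y, r y x ∧ idx y < idx x) : Nat.card (Quot r) = m := by
  have key : ∀ N x, idx x < N → Quot.mk r x = Quot.mk r (rep (lab x)) := by
    intro N
    induction N with
    | zero => intro x hx; omega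
    | succ N ih =>
      intro x hx
      rcases h3 x with h | ⟨y, hy, hlt⟩
      · exact congrArg _ h
      · rw [← Quot.sound hy, ← h1 y x hy]
        exact ih y (by omega)
  have e : Quot r ≃ Fin m :=
    { toFun := Quot.lift lab h1
      invFun := fun c => Quot.mk r (rep c)
      left_inv := by
        rintro ⟨x⟩
        exact (key _ x (Nat.lt_succ_self _)).symm
      right_inv := h2 }
  rw [Nat.card_congr e, Nat.card_fin]

def look {α : Type} (T : List (List α)) (d : α) (l : List (Fin 19)) (u v : Fin 19) : α :=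
  (T.getD u []).getD (l.idxOf v) d

def labT₁ : List (List (Fin 7)) :=
  [[0, 0, 0], [0, 1, 0], [1, 0], [1, 2, 1, 0], [2, 1], [2, 2, 1], [2], [0, 3, 0], [3, 0], [3, 4, 3, 0], [4, 3], [4, 4, 3], [4], [0, 5, 0], [5, 0], [5, 6, 5, 0], [6, 5], [6, 6, 5], [6]]
def idxT₁ : List (List ℕ) :=
  [[0, 5, 10], [1, 0, 4], [5, 2], [1, 0, 4, 3], [4, 2], [1, 3, 3], [2], [6, 0, 9], [5, 7], [1, 0, 4, 8], [4, 2], [1, 3, 3], [2], [11, 0, 14], [5, 12], [1, 0, 4, 13], [4, 2], [1, 3, 3], [2]]
def preT₁ : List (List (Fin 19)) :=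
  [[13, 1, 7], [0, 2, 3], [3, 1], [1, 4, 5, 2], [5, 3], [3, 6, 4], [5], [0, 8, 9], [9, 7], [7, 10, 11, 8], [11, 9], [9, 12, 10], [11], [0, 14, 15], [15, 13], [13, 16, 17, 14], [17, 15], [15, 18, 16], [17]]
def repT₁ (c : Fin 7) : Fin 19 × Fin 19 :=
  [(0, 1), (1, 3), (3, 5), (7, 9), (9, 11), (13, 15), (15, 17)].getD c (0, 0)

def labT₂ : List (List (Fin 4)) :=
  [[0, 0, 0], [1, 0, 0], [0, 1], [0, 1], [0, 1], [1, 1, 0], [1], [2, 0, 0], [0, 2], [0, 2], [0, 2], [2, 2, 0], [2], [3, 0, 0], [0, 3], [0, 3], [0, 3], [3, 3, 0], [3]]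
def idxT₂ : List (List ℕ) :=
  [[0, 7, 14], [0, 6, 1], [5, 1], [4, 2], [3, 3], [4, 6, 2], [5], [0, 13, 8], [12, 1], [11, 2], [10, 3], [4, 6, 9], [5], [0, 20, 15], [19, 1], [18, 2], [17, 3], [4, 6, 16], [5]]
def preT₂ : List (List (Fin 19)) :=
  [[13, 1, 7], [5, 2, 0], [3, 1], [4, 2], [5, 3], [4, 6, 1], [5], [11, 8, 0], [9, 7], [10, 8], [11, 9], [10, 12, 7], [11], [17, 14, 0], [15, 13], [16, 14], [17, 15], [16, 18, 13], [17]]
def repT₂ (c : Fin 4) : Fin 19 × Fin 19 :=
  [(0, 1), (1, 2), (7, 8), (13, 14)].getD c (0, 0)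

def lab₁ (u v : Fin 19) : Fin 7 := look labT₁ 0 (rot₁ u) u v
def idx₁ (u v : Fin 19) : ℕ := look idxT₁ 0 (rot₁ u) u v
def pre₁ (u v : Fin 19) : Fin 19 := look preT₁ 0 (rot₁ u) u v
def lab₂ (u v : Fin 19) : Fin 4 := look labT₂ 0 (rot₂ u) u v
def idx₂ (u v : Fin 19) : ℕ := look idxT₂ 0 (rot₂ u) u v
def pre₂ (u v : Fin 19) : Fin 19 := look preT₂ 0 (rot₂ u) u v

theorem stepA₁ : ∀ u v : Fin 19, v ∈ rot₁ u → ∀ h : u ∈ rot₁ v,
    lab₁ u v = lab₁ v ((rot₁ v).next u h) := by decide +kernel
theorem stepA₂ : ∀ u v : Fin 19, v ∈ rot₂ u → ∀ h : u ∈ rot₂ v,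
    lab₂ u v = lab₂ v ((rot₂ v).next u h) := by decide +kernel
theorem repA₁ : ∀ c : Fin 7, (repT₁ c).2 ∈ rot₁ (repT₁ c).1 ∧
    lab₁ (repT₁ c).1 (repT₁ c).2 = c := by decide +kernel
theorem repA₂ : ∀ c : Fin 4, (repT₂ c).2 ∈ rot₂ (repT₂ c).1 ∧
    lab₂ (repT₂ c).1 (repT₂ c).2 = c := by decide +kernel
theorem preA₁ : ∀ u v : Fin 19, v ∈ rot₁ u → (u, v) = repT₁ (lab₁ u v) ∨
    (u ∈ rot₁ (pre₁ u v) ∧ (∃ h : pre₁ u v ∈ rot₁ u, v = (rot₁ u).next (pre₁ u v) h) ∧
      idx₁ (pre₁ u v) u < idx₁ u v) := by decide +kernel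
theorem preA₂ : ∀ u v : Fin 19, v ∈ rot₂ u → (u, v) = repT₂ (lab₂ u v) ∨
    (u ∈ rot₂ (pre₂ u v) ∧ (∃ h : pre₂ u v ∈ rot₂ u, v = (rot₂ u).next (pre₂ u v) h) ∧
      idx₂ (pre₂ u v) u < idx₂ u v) := by decide +kernel

theorem faces₁ : R₁.numFaces = 7 := by
  refine card_quot R₁.FaceStep (fun d => lab₁ d.1.1 d.1.2) (fun d => idx₁ d.1.1 d.1.2)
    (fun c => ⟨repT₁ c, (repA₁ c).1⟩) ?_ (fun c => (repA₁ c).2) ?_
  · rintro ⟨⟨u, v⟩, huv⟩ ⟨⟨v', w⟩, hvw⟩ ⟨e, h, e2⟩
    simp only at e h e2
    subst e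
    show lab₁ u v' = lab₁ v' w
    rw [e2]
    exact stepA₁ u v' huv h
  · rintro ⟨⟨u, v⟩, huv⟩
    rcases preA₁ u v huv with h | ⟨h1, ⟨h2, h3⟩, h4⟩
    · left; exact Subtype.ext h
    · right
      exact ⟨⟨(pre₁ u v, u), h1⟩, ⟨rfl, h2, h3⟩, h4⟩

theorem faces₂ : R₂.numFaces = 4 := by
  refine card_quot R₂.FaceStep (fun d => lab₂ d.1.1 d.1.2) (fun d => idx₂ d.1.1 d.1.2)
    (fun c => ⟨repT₂ c, (repA₂ c).1⟩) ?_ (fun c => (repA₂ c).2) ?_
  · rintro ⟨⟨u, v⟩, huv⟩ ⟨⟨v', w⟩, hvw⟩ ⟨e, h, e2⟩
    simp only at e h e2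
    subst e
    show lab₂ u v' = lab₂ v' w
    rw [e2]
    exact stepA₂ u v' huv h
  · rintro ⟨⟨u, v⟩, huv⟩
    rcases preA₂ u v huv with h | ⟨h1, ⟨h2, h3⟩, h4⟩
    · left; exact Subtype.ext h
    · right
      exact ⟨⟨(pre₂ u v, u), h1⟩, ⟨rfl, h2, h3⟩, h4⟩

theorem planar₁ : R₁.IsPlanar := by
  unfold RotationSystem.IsPlanar
  rw [faces₁, card_edges₁, Nat.card_fin]

theorem planar₂ : R₂.IsPlanar := by
  unfold RotationSystem.IsPlanar
  rw [faces₂, card_edges₂, Nat.card_fin]

theorem compatA : ∀ v : Fin 19,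
    ((rot₁ v).filter (fun w => decide (G₁.Adj v w ∧ G₂.Adj v w))).IsRotated
      ((rot₂ v).filter (fun w => decide (G₁.Adj v w ∧ G₂.Adj v w))) := by decide +kernel

theorem compatible : Compatible R₁ R₂ := by
  intro v
  have h := compatA v
  convert h using 2
  · funext w
    simp [SimpleGraph.inf_adj]
  · rfl
  · funext w
    simp [SimpleGraph.inf_adj]
  · rfl

/-- **One bend per exclusive edge is not always enough.**  There are two connected graphs on a
common set of `19` vertices, with connected intersection (a tree), and compatible planar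
embeddings of them that are not realised by any `(0, 1)`-drawing. -/
theorem result : ∃ (G₁ G₂ : SimpleGraph (Fin 19)) (R₁ : RotationSystem G₁)
    (R₂ : RotationSystem G₂), G₁.Connected ∧ G₂.Connected ∧ (G₁ ⊓ G₂).Connected ∧
    R₁.IsPlanar ∧ R₂.IsPlanar ∧ Compatible R₁ R₂ ∧
    ¬ ∃ D : PolyDrawing (Fin 19), IsSimultaneousDrawing R₁ R₂ D ∧ HasBends G₁ G₂ 0 1 D :=
  ⟨G₁, G₂, R₁, R₂, connected₁, connected₂, connected_inf, planar₁, planar₂, compatible,
    fun ⟨D, h, hb⟩ => no_drawing D h hb⟩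

end Pool.Agent.Results.MP_061339_co.OneBendFails
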